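import Pool.Agent.Lib.Pa3f63f.Final

namespace Pool.Agent.Results.MP_a3f63f_ag.SimplyConnected

open Pool.Agent.Lib.Pa3f63f

/-- For all `N ≥ 1` and `d ≥ 2` the moduli space `M_d^N(ℂ)` of degree `d` endomorphisms of
`ℙ^N`, with its classical topology, is simply connected: it is path connected and its fundamental
group at every base point is trivial. -/
theorem result (N d : ℕ) (hN : 1 ≤ N) (hd : 2 ≤ d) :
    SimplyConnectedSpace (Moduli N d) ∧
      ∀ x : Moduli N d, Subsingleton (FundamentalGroup (Moduli N d) x) := by
  have h := simplyConnected hN hd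
  refine ⟨h, fun x => ⟨fun p q => ?_⟩⟩
  apply Subsingleton.elim

end Pool.Agent.Results.MP_a3f63f_ag.SimplyConnected
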